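import Pool.Agent.H204.CS.Fin

/-!
# A commutative CAS whose partition map admits no CAS with property (T2)

Negative answer to Q2 (and to Q1 with a commutative example). The spaces are `X = ℝ³ × H³` (both
factors modelled on `ℝ × ℂ`) and the space `D` of sorted pairs `r ≥ s ≥ 0`; `π(x, y)` is the sorted pair
of the Euclidean distance of the first and the hyperbolic distance of the second components. The kernel
is the combination of the product spherical means of radii `(r, s)` and `(s, r)` with the weights
`sinh s / s` and `sinh r / r`.
-/

set_option autoImplicit false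

namespace Pool.Agent.Results.MP_466bd8_al.CommutativeNoT2

open MeasureTheory Pool.Agent.V1135.CAS

theorem result : ∃ (X D : Type) (_ : TopologicalSpace X) (_ : T2Space X)
    (_ : LocallyCompactSpace X) (_ : SecondCountableTopology X) (_ : MeasurableSpace X)
    (_ : BorelSpace X) (_ : TopologicalSpace D) (_ : T2Space D) (_ : LocallyCompactSpace D)
    (_ : SecondCountableTopology D) (_ : MeasurableSpace D) (_ : BorelSpace D) (C : CAS X D),
    C.H.Comm ∧ ∀ C' : CAS X D, C'.π = C.π → ¬ C'.T2 := by
  refine ⟨(ℝ × ℂ) × (ℝ × ℂ), Pool.Agent.H204.CS.D, inferInstance, inferInstance, inferInstance,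
    inferInstance, inferInstance, inferInstance, inferInstance, inferInstance, inferInstance,
    inferInstance, inferInstance, inferInstance, ?_⟩
  exact Pool.Agent.H204.CS.exists_comm_cas

end Pool.Agent.Results.MP_466bd8_al.CommutativeNoT2
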